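import Pool.Agent.Helper43.GD.St

/-! Module KA of project GD (MP_b3ce06_al). -/

set_option autoImplicit false

namespace Pool.Agent.Helper1.GD

open Pool.Agent.Helper43.GD

section
variable {G : Type} [Group G] {M : ℕ} {a w t : G}

theorem tcj (a t : G) (i k : ℤ) : t ^ k * cj a t i = cj a t (i - k) * t ^ k := by
  unfold cj
  have e1 : t ^ (-(i - k)) = t ^ k * t ^ (-i) := by rw [← zpow_add]; congr 1; ring
  have e2 : t ^ (i - k) * t ^ k = t ^ i := by rw [← zpow_add]; congr 1; ring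
  calc t ^ k * (t ^ (-i) * a * t ^ i) = t ^ k * t ^ (-i) * a * t ^ i := by group
    _ = t ^ (-(i - k)) * a * (t ^ (i - k) * t ^ k) := by rw [e1, e2]
    _ = _ := by group

theorem tcj' (a t : G) (i k : ℤ) : t ^ k * (cj a t i)⁻¹ = (cj a t (i - k))⁻¹ * t ^ k := by
  have h := tcj a t i k
  rw [eq_inv_mul_iff_mul_eq, ← mul_assoc, ← h]
  group

theorem w_t (h : Rel M a w t) (k : ℤ) : t ^ k * w = w * t ^ (-k) := by
  have h2 : w⁻¹ * t * w = t⁻¹ := h.2.1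
  have h3 : w⁻¹ * t ^ k * w = t ^ (-k) := by
    have : (w⁻¹ * t * w⁻¹⁻¹) ^ k = w⁻¹ * t ^ k * w⁻¹⁻¹ := conj_zpow
    rw [inv_inv] at this
    rw [← this, h2, inv_zpow, zpow_neg]
  rw [← h3]
  group

theorem w_t' (h : Rel M a w t) (k : ℤ) : t ^ k * w⁻¹ = w⁻¹ * t ^ (-k) := by
  have h1 := w_t h (-k)
  rw [neg_neg] at h1
  calc t ^ k * w⁻¹ = w⁻¹ * (w * t ^ k) * w⁻¹ := by group
    _ = w⁻¹ * (t ^ (-k) * w) * w⁻¹ := by rw [h1]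
    _ = _ := by group

theorem cj_zero (a t : G) : cj a t 0 = a := by simp [cj]

theorem fib (h : Rel M a w t) (j : ℤ) : cj a t j = cj a t (j + 1) * cj a t (j + 2) := by
  have h3 := h.2.2
  have e : t ^ (-j) * cj a t 0 = cj a t j * t ^ (-j) := by
    rw [tcj]; congr 2; ring
  have e1 : t ^ (-j) * cj a t 1 = cj a t (j + 1) * t ^ (-j) := by
    rw [tcj]; congr 2; ring
  have e2 : t ^ (-j) * cj a t 2 = cj a t (j + 2) * t ^ (-j) := by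
    rw [tcj]; congr 2; ring
  rw [cj_zero] at e
  calc cj a t j = cj a t j * t ^ (-j) * t ^ j := by group
    _ = t ^ (-j) * a * t ^ j := by rw [e]
    _ = t ^ (-j) * (cj a t 1 * cj a t 2) * t ^ j := by rw [← h3]
    _ = (t ^ (-j) * cj a t 1) * cj a t 2 * t ^ j := by group
    _ = cj a t (j + 1) * (t ^ (-j) * cj a t 2) * t ^ j := by rw [e1]; group
    _ = _ := by rw [e2]; group

/-- `F1` for `j = M + 2` -/
theorem F1 (h : Rel M a w t) :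
    w * cj a t (M + 2) * w⁻¹ = cj a t (-2) * w * cj a t 2 * t ^ (-4 : ℤ) := by
  have h1 := h.1
  have e : cj a t (M + 2) * t ^ (-2 : ℤ) = t ^ (-2 : ℤ) * cj a t M := by
    rw [tcj]; congr 2
  have e1 : t ^ (2 : ℤ) * a = cj a t (-2) * t ^ (2 : ℤ) := by
    have := tcj a t 0 2
    rw [cj_zero] at this
    rw [this]; congr 2
  have e2 : t ^ (-2 : ℤ) * a = cj a t 2 * t ^ (-2 : ℤ) := by
    have := tcj a t 0 (-2)
    rw [cj_zero] at this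
    rw [this]; congr 2
  have w1 := w_t h 2
  have w2 : w * t ^ (-2 : ℤ) = t ^ (2 : ℤ) * w := w1.symm
  have w3 : t ^ (2 : ℤ) * w⁻¹ = w⁻¹ * t ^ (-2 : ℤ) := w_t' h 2
  calc w * cj a t (M + 2) * w⁻¹
      = w * (cj a t (M + 2) * t ^ (-2 : ℤ)) * (t ^ (2 : ℤ) * w⁻¹) := by group
    _ = w * (t ^ (-2 : ℤ) * cj a t M) * (w⁻¹ * t ^ (-2 : ℤ)) := by rw [e, w3]
    _ = (w * t ^ (-2 : ℤ)) * cj a t M * w⁻¹ * t ^ (-2 : ℤ) := by group
    _ = t ^ (2 : ℤ) * (w * cj a t M * w⁻¹) * t ^ (-2 : ℤ) := by rw [w2]; group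
    _ = t ^ (2 : ℤ) * (a * w * a) * t ^ (-2 : ℤ) := by rw [← h1]
    _ = (t ^ (2 : ℤ) * a) * w * a * t ^ (-2 : ℤ) := by group
    _ = cj a t (-2) * (t ^ (2 : ℤ) * w) * a * t ^ (-2 : ℤ) := by rw [e1]; group
    _ = cj a t (-2) * w * (t ^ (-2 : ℤ) * a) * t ^ (-2 : ℤ) := by rw [w1]; group
    _ = _ := by rw [e2]; group

/-- `F2` for `j = 2` -/
theorem F2 (h : Rel M a w t) :
    w⁻¹ * cj a t 2 * w = cj a t (M - 2) * w⁻¹ * (cj a t 2)⁻¹ * t ^ (-4 : ℤ) := by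
  have h1 := h.1
  have h1' : w⁻¹ * a * w = cj a t M * w⁻¹ * a⁻¹ := by
    calc w⁻¹ * a * w = w⁻¹ * (a * w * a) * a⁻¹ := by group
      _ = w⁻¹ * (w * cj a t M * w⁻¹) * a⁻¹ := by rw [h1]
      _ = _ := by group
  have e : cj a t 2 = t ^ (-2 : ℤ) * a * t ^ (2 : ℤ) := rfl
  have w1 := w_t h 2
  have w2 : t ^ (2 : ℤ) * w⁻¹ = w⁻¹ * t ^ (-2 : ℤ) := w_t' h 2
  have w3 : w⁻¹ * t ^ (-2 : ℤ) = t ^ (2 : ℤ) * w⁻¹ := w2.symm
  have e1 : t ^ (2 : ℤ) * cj a t M = cj a t (M - 2) * t ^ (2 : ℤ) := tcj a t M 2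
  calc w⁻¹ * cj a t 2 * w = (w⁻¹ * t ^ (-2 : ℤ)) * a * (t ^ (2 : ℤ) * w) := by rw [e]; group
    _ = t ^ (2 : ℤ) * (w⁻¹ * a * w) * t ^ (-2 : ℤ) := by rw [w3, w1]; group
    _ = (t ^ (2 : ℤ) * cj a t M) * w⁻¹ * a⁻¹ * t ^ (-2 : ℤ) := by rw [h1']; group
    _ = cj a t (M - 2) * (t ^ (2 : ℤ) * w⁻¹) * a⁻¹ * t ^ (-2 : ℤ) := by rw [e1]; group
    _ = cj a t (M - 2) * w⁻¹ * (t ^ (-2 : ℤ) * a⁻¹ * t ^ (2 : ℤ)) * t ^ (-4 : ℤ) := by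
        rw [w2]; group
    _ = _ := by rw [e]; group

/-- `T` -/
theorem Tj (h : Rel M a w t) (j : ℤ) : (cj a t j)⁻¹ * t * cj a t j = t * cj a t (j + 2) := by
  have f := fib h j
  have e : t ^ (1 : ℤ) * (cj a t (j + 1))⁻¹ = (cj a t j)⁻¹ * t ^ (1 : ℤ) := by
    rw [tcj']; congr 3; ring
  rw [zpow_one] at e
  calc (cj a t j)⁻¹ * t * cj a t j = t * (cj a t (j + 1))⁻¹ * cj a t j := by rw [e]
    _ = t * (cj a t (j + 1))⁻¹ * (cj a t (j + 1) * cj a t (j + 2)) := by rw [← f]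
    _ = _ := by group

end

theorem hKA : StKA := by
  intro G _ M a w t h
  have h1 := h.1
  have h2 := h.2.1
  have f1 := F1 h
  have f2 := F2 h
  have w4 := w_t' h 4
  have TM := Tj h M
  have T0 := Tj h 0
  rw [cj_zero, zero_add] at T0
  -- left side
  have hX : (w * cj a t M * w⁻¹)⁻¹ * t * (w * cj a t M * w⁻¹) =
      (cj a t (-2))⁻¹ * w⁻¹ * (cj a t 2)⁻¹ * t ^ (-3 : ℤ) := by
    have w5 : w * t⁻¹ * w⁻¹ = t := by
      have := w_t h (1 : ℤ)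
      rw [zpow_neg, zpow_one] at this
      rw [← this]; group
    have e1 : t ^ (4 : ℤ) * (cj a t 2)⁻¹ = (cj a t (-2))⁻¹ * t ^ (4 : ℤ) := by
      rw [tcj']; congr 3
    have e2 : t ^ (-4 : ℤ) * (cj a t (-2))⁻¹ = (cj a t 2)⁻¹ * t ^ (-4 : ℤ) := by
      rw [tcj']; congr 3
    calc (w * cj a t M * w⁻¹)⁻¹ * t * (w * cj a t M * w⁻¹)
        = w * (cj a t M)⁻¹ * (w⁻¹ * t * w) * cj a t M * w⁻¹ := by group
      _ = w * ((cj a t M)⁻¹ * t * cj a t M)⁻¹ * w⁻¹ := by rw [h2]; group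
      _ = (w * cj a t (M + 2) * w⁻¹)⁻¹ * (w * t⁻¹ * w⁻¹) := by rw [TM]; group
      _ = (t ^ (4 : ℤ) * (cj a t 2)⁻¹) * w⁻¹ * (cj a t (-2))⁻¹ * t := by
          rw [f1, w5]; group
      _ = (cj a t (-2))⁻¹ * (t ^ (4 : ℤ) * w⁻¹) * (cj a t (-2))⁻¹ * t := by rw [e1]; group
      _ = (cj a t (-2))⁻¹ * w⁻¹ * (t ^ (-4 : ℤ) * (cj a t (-2))⁻¹) * t := by rw [w4]; group
      _ = _ := by rw [e2]; group
  -- right side
  have hY : (a * w * a)⁻¹ * t * (a * w * a) =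
      a⁻¹ * cj a t (M - 1) * w⁻¹ * (cj a t 1)⁻¹ * cj a t 3 * t ^ (-3 : ℤ) := by
    have e1 : t ^ (-1 : ℤ) * cj a t (M - 2) = cj a t (M - 1) * t ^ (-1 : ℤ) := by
      rw [tcj]; congr 2; ring
    have e2 : t ^ (-1 : ℤ) * w⁻¹ = w⁻¹ * t ^ (1 : ℤ) := by
      have := w_t' h (-1)
      rw [this]; congr 2
    have e3 : t ^ (1 : ℤ) * (cj a t 2)⁻¹ = (cj a t 1)⁻¹ * t ^ (1 : ℤ) := by
      rw [tcj']; congr 3
    have e4 : t ^ (-3 : ℤ) * a = cj a t 3 * t ^ (-3 : ℤ) := by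
      have := tcj a t 0 (-3)
      rw [cj_zero] at this
      rw [this]; congr 2
    calc (a * w * a)⁻¹ * t * (a * w * a)
        = a⁻¹ * w⁻¹ * (a⁻¹ * t * a) * w * a := by group
      _ = a⁻¹ * (w⁻¹ * t * w) * (w⁻¹ * cj a t 2 * w) * a := by rw [T0]; group
      _ = a⁻¹ * (t ^ (-1 : ℤ) * cj a t (M - 2)) * w⁻¹ * (cj a t 2)⁻¹ * t ^ (-4 : ℤ) * a := by
          rw [h2, f2]; group
      _ = a⁻¹ * cj a t (M - 1) * (t ^ (-1 : ℤ) * w⁻¹) * (cj a t 2)⁻¹ * t ^ (-4 : ℤ) * a := by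
          rw [e1]; group
      _ = a⁻¹ * cj a t (M - 1) * w⁻¹ * (t ^ (1 : ℤ) * (cj a t 2)⁻¹) * t ^ (-4 : ℤ) * a := by
          rw [e2]; group
      _ = a⁻¹ * cj a t (M - 1) * w⁻¹ * (cj a t 1)⁻¹ * (t ^ (-3 : ℤ) * a) := by
          rw [e3]; group
      _ = _ := by rw [e4]; group
  rw [h1] at hY
  rw [hY] at hX
  have key : a⁻¹ * cj a t (M - 1) * w⁻¹ * (cj a t 1)⁻¹ * cj a t 3 =
      (cj a t (-2))⁻¹ * w⁻¹ * (cj a t 2)⁻¹ := mul_right_cancel hX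
  have fm2 : cj a t (-2) = cj a t (-1) * a := by
    have := fib h (-2)
    rw [this]
    have e1 : (-2 : ℤ) + 1 = -1 := by norm_num
    have e2 : (-2 : ℤ) + 2 = 0 := by norm_num
    rw [e1, e2, cj_zero]
  have f1' : cj a t 1 = cj a t 2 * cj a t 3 := by
    have := fib h 1
    rw [this]
    have e1 : (1 : ℤ) + 1 = 2 := by norm_num
    have e2 : (1 : ℤ) + 2 = 3 := by norm_num
    rw [e1, e2]
  have k2 : w⁻¹ = cj a t (-1) * cj a t (M - 1) * w⁻¹ *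
      ((cj a t 3)⁻¹ * (cj a t 2)⁻¹ * cj a t 3 * cj a t 2) := by
    calc w⁻¹ = cj a t (-2) * ((cj a t (-2))⁻¹ * w⁻¹ * (cj a t 2)⁻¹) * cj a t 2 := by group
      _ = cj a t (-2) * (a⁻¹ * cj a t (M - 1) * w⁻¹ * (cj a t 1)⁻¹ * cj a t 3) * cj a t 2 := by
          rw [key]
      _ = _ := by rw [fm2, f1']; group
  calc w * (cj a t (-1) * cj a t (M - 1)) * w⁻¹
      = w * (cj a t (-1) * cj a t (M - 1) * w⁻¹ *
          ((cj a t 3)⁻¹ * (cj a t 2)⁻¹ * cj a t 3 * cj a t 2)) *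
          ((cj a t 3)⁻¹ * (cj a t 2)⁻¹ * cj a t 3 * cj a t 2)⁻¹ := by group
    _ = w * w⁻¹ * ((cj a t 3)⁻¹ * (cj a t 2)⁻¹ * cj a t 3 * cj a t 2)⁻¹ := by rw [← k2]
    _ = _ := by group

end Pool.Agent.Helper1.GD
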