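import Pool.Agent.Helper43.GD.St

/-! Module TF of project GD (MP_b3ce06_al). -/

set_option autoImplicit false

namespace Pool.Agent.Helper1.GD

open Pool.Agent.Helper43.GD

theorem nsq2 : ¬ IsSquare (2 : ZMod 5) := by decide

theorem nsq3 : ¬ IsSquare (3 : ZMod 5) := by decide

theorem hTF : StTF := by
  intro p hp hmod
  have hpp : p.Prime := hp.out
  have : Finite (GaloisField p 2) := inferInstance
  have : Fintype (GaloisField p 2) := Fintype.ofFinite _
  have hp2 : p ≠ 2 := by rintro rfl; omega
  have hp5 : p ≠ 5 := by rintro rfl; omega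
  have hcard : Fintype.card (GaloisField p 2) = p ^ 2 := by
    rw [← Nat.card_eq_fintype_card, GaloisField.card p 2 two_ne_zero]
  have hch : CharP (GaloisField p 2) p := inferInstance
  have hring : ringChar (GaloisField p 2) = p := ringChar.eq (GaloisField p 2) p
  have h5 : ((5 : ℕ) : GaloisField p 2) ≠ 0 := by
    rw [Ne, CharP.cast_eq_zero_iff (GaloisField p 2) p]
    intro h
    rcases (Nat.dvd_prime Nat.prime_five).1 h with h | h
    · exact hpp.one_lt.ne' h
    · exact hp5 h
  have h2 : ((2 : ℕ) : GaloisField p 2) ≠ 0 := by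
    rw [Ne, CharP.cast_eq_zero_iff (GaloisField p 2) p]
    intro h
    rcases (Nat.dvd_prime Nat.prime_two).1 h with h | h
    · exact hpp.one_lt.ne' h
    · exact hp2 h
  have h2' : (2 : GaloisField p 2) ≠ 0 := by exact_mod_cast h2
  have h5' : (5 : GaloisField p 2) ≠ 0 := by exact_mod_cast h5
  have h5p : (5 : GaloisField p 2) ^ p = 5 := by
    have h := map_natCast (frobenius (GaloisField p 2) p) 5
    rw [frobenius_def] at h
    exact_mod_cast h
  have hodd : p % 2 = 1 := by omega
  have hp1 : 1 ≤ p := hpp.one_lt.le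
  have h5q : (5 : GaloisField p 2) ^ (p - 1) = 1 := by
    have : (5 : GaloisField p 2) ^ (p - 1) * 5 = 1 * 5 := by
      rw [← pow_succ, Nat.sub_add_cancel hp1, h5p, one_mul]
    exact mul_right_cancel₀ h5' this
  -- `5` is a square in `K`
  have hsq : IsSquare (5 : GaloisField p 2) := by
    rw [FiniteField.isSquare_iff (by rw [hring]; exact hp2) h5', hcard]
    have e : p ^ 2 / 2 = (p - 1) * ((p + 1) / 2) := by
      obtain ⟨k, hk⟩ : ∃ k, p = 2 * k + 1 := ⟨p / 2, by omega⟩
      subst hk
      have a1 : (2 * k + 1) ^ 2 = 2 * (2 * k * (k + 1)) + 1 := by ring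
      have a2 : (2 * k + 1 + 1) / 2 = k + 1 := by omega
      rw [a1, a2]
      have a3 : 2 * k + 1 - 1 = 2 * k := by omega
      rw [a3]
      omega
    rw [e, pow_mul, h5q, one_pow]
  obtain ⟨c, hc⟩ := hsq
  have hx : ((-1 + c) / 2) ^ 2 + (-1 + c) / 2 = (1 : GaloisField p 2) := by
    field_simp
    linear_combination -hc
  have hne : ((-1 + c) / 2) ^ p ≠ ((-1 + c) / 2 : GaloisField p 2) := by
    intro h
    set x : GaloisField p 2 := (-1 + c) / 2 with hxd
    have hcx : c = 2 * x + 1 := by
      rw [hxd]; field_simp; ring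
    have h2p : (2 : GaloisField p 2) ^ p = 2 := by
      have h := map_natCast (frobenius (GaloisField p 2) p) 2
      rw [frobenius_def] at h
      exact_mod_cast h
    have hcp : c ^ p = c := by
      rw [hcx, add_pow_char, mul_pow, h, h2p, one_pow]
    have hc0 : c ≠ 0 := by
      rintro rfl
      apply h5'
      rw [hc]; ring
    have hcq : c ^ (p - 1) = 1 := by
      have : c ^ (p - 1) * c = 1 * c := by
        rw [← pow_succ, Nat.sub_add_cancel hp1, hcp, one_mul]
      exact mul_right_cancel₀ hc0 this
    have h5r : (5 : GaloisField p 2) ^ (p / 2) = 1 := by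
      rw [hc, ← pow_two, ← pow_mul]
      have : 2 * (p / 2) = p - 1 := by omega
      rw [this, hcq]
    have h5z : (5 : ZMod p) ^ (p / 2) = 1 := by
      apply (algebraMap (ZMod p) (GaloisField p 2)).injective
      rw [map_pow, map_one, map_ofNat]
      exact h5r
    have h50 : (5 : ZMod p) ≠ 0 := by
      intro h
      apply h5'
      have := congrArg (algebraMap (ZMod p) (GaloisField p 2)) h
      rwa [map_ofNat, map_zero] at this
    have hs : IsSquare (5 : ZMod p) := (ZMod.euler_criterion p h50).2 h5z
    have : Fact (Nat.Prime 5) := ⟨Nat.prime_five⟩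
    have hq := ZMod.exists_sq_eq_prime_iff_of_mod_four_eq_one (p := 5) (q := p) (by norm_num) hp2
    have hs' : IsSquare ((p : ℕ) : ZMod 5) := by
      rw [hq]
      exact_mod_cast hs
    have hm : (p : ZMod 5) = 2 ∨ (p : ZMod 5) = 3 := by
      have : p % 5 = 2 ∨ p % 5 = 3 := by omega
      rcases this with h | h
      · left
        have := ZMod.natCast_mod p 5
        rw [← this, h]; rfl
      · right
        have := ZMod.natCast_mod p 5
        rw [← this, h]; rfl
    rcases hm with hm | hm
    · rw [hm] at hs'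
      exact nsq2 hs'
    · rw [hm] at hs'
      exact nsq3 hs'
  refine ⟨(-1 + c) / 2, hx, hne, ?_⟩
  set x : GaloisField p 2 := (-1 + c) / 2 with hxd
  have hy : (x ^ p) ^ 2 + x ^ p = 1 := by
    have := congrArg (fun z => z ^ p) hx
    simp only [one_pow] at this
    rw [add_pow_char, ← pow_mul, mul_comm 2 p, pow_mul] at this
    exact this
  have hz : (x ^ p - x) * (x ^ p + x + 1) = 0 := by
    linear_combination hy - hx
  rcases mul_eq_zero.1 hz with h | h
  · exact absurd (sub_eq_zero.1 h) hne
  · rw [pow_succ]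
    have e : x ^ p = -1 - x := by linear_combination h
    rw [e]
    linear_combination -hx

end Pool.Agent.Helper1.GD
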